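import Pool.Agent.Helper14.BSC.Stmts2

/-!
# ONE4: functions with algebraic values at all places have rational norm classes
-/

set_option autoImplicit false

namespace Pool.Agent.Helper14.BSC

section
variable {k Ω : Type} [Field k] [Field Ω] [Algebra k Ω]

theorem one4_inc (D : Sec k Ω) (c : FF (∅ : Set (Acl k Ω))) (c' : k)
    (h : (c : Acl k Ω) = algebraMap k (Acl k Ω) c') : inc D ∅ c = algebraMap k (LL D) c' := by
  have h1 : c = algebraMap k (FF (∅ : Set (Acl k Ω))) c' := Subtype.ext h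
  rw [h1]
  exact (inc D ∅).commutes c'

theorem one4_rep (hK : ST_KUM) (hB : ST_BOT) [CharZero k] [IsAlgClosed Ω] (D : Sec k Ω)
    (x : LL D) (hx : x ≠ 0) : ∀ N : ℕ, ∃ c : k, ∃ g : LL D, 0 < N → c ≠ 0 ∧ g ≠ 0 ∧
      x = algebraMap k (LL D) c * g ^ N := by
  intro N
  by_cases hN : 0 < N
  · obtain ⟨c, hc, y, hy, he⟩ := hK k Ω D ∅ N hN x hx
    obtain ⟨c', hc'⟩ := hB k Ω (c : Acl k Ω) c.2
    have h1 := one4_inc D c c' hc'
    refine ⟨c', y, fun _ => ⟨?_, hy, ?_⟩⟩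
    · intro h0
      apply hc
      apply Subtype.ext
      rw [hc', h0, map_zero]
      rfl
    · rw [← h1]; exact he
  · exact ⟨0, 0, fun h => absurd h hN⟩

theorem one4_root (hR : ST_ROOT) (hB : ST_BOT) [CharZero k] [IsAlgClosed Ω] (D : Sec k Ω)
    (y : LL D) (c : k) (N : ℕ) (hN : 0 < N) (h : y ^ N = algebraMap k (LL D) c) :
    ∃ d : k, y = algebraMap k (LL D) d := by
  obtain ⟨d, hd⟩ := hR k Ω D ∅ N hN y (algebraMap k (FF (∅ : Set (Acl k Ω))) c) (by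
    rw [h]; exact ((inc D ∅).commutes c).symm)
  obtain ⟨d', hd'⟩ := hB k Ω (d : Acl k Ω) d.2
  exact ⟨d', by rw [hd]; exact one4_inc D d d' hd'⟩

/-- representations at `N * M` and `N` -/
theorem one4_cls (hR : ST_ROOT) (hB : ST_BOT) [CharZero k] [IsAlgClosed Ω] (D : Sec k Ω)
    (x : LL D) (c c' : k) (g g' : LL D) (N M : ℕ) (hN : 0 < N) (hc : c ≠ 0)
    (hg' : g' ≠ 0) (h : x = algebraMap k (LL D) c * g ^ N)
    (h' : x = algebraMap k (LL D) c' * g' ^ (N * M)) : ∃ d : k, c' = c * d ^ N := by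
  have hcL : algebraMap k (LL D) c ≠ 0 := fun h0 => hc ((algebraMap k (LL D)).injective (by
    rw [h0, map_zero]))
  have key : (g * (g' ^ M)⁻¹) ^ N = algebraMap k (LL D) (c' / c) := by
    have hgM : (g' ^ M) ^ N ≠ 0 := pow_ne_zero _ (pow_ne_zero _ hg')
    have e1 : algebraMap k (LL D) c * g ^ N = algebraMap k (LL D) c' * (g' ^ M) ^ N := by
      rw [← h, h', ← pow_mul, Nat.mul_comm N M]
    rw [mul_pow, inv_pow, map_div₀]
    rw [eq_div_iff hcL, mul_assoc, mul_comm ((g' ^ M) ^ N)⁻¹, ← mul_assoc,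
      mul_inv_eq_iff_eq_mul₀ hgM, ← e1, mul_comm]
  obtain ⟨d, hd⟩ := one4_root hR hB D _ _ N hN key
  refine ⟨d, ?_⟩
  rw [hd, ← map_pow] at key
  have := (algebraMap k (LL D)).injective key
  rw [this, mul_div_cancel₀ _ hc]

end

theorem one4_prod {p : ℕ} [Fact p.Prime] {n : ℕ} (a : Fin n → ℂ_[p]) {δ : ℝ} (hδ : 0 < δ) :
    ∃ ε : ℝ, 0 < ε ∧ ∀ y : Fin n → ℂ_[p], (∀ i, ‖y i - a i‖ < ε) →
      ‖∏ i, y i - ∏ i, a i‖ < δ := by
  have hc : Continuous (fun y : Fin n → ℂ_[p] => ∏ i, y i) :=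
    continuous_finsetProd _ (fun i _ => continuous_apply i)
  obtain ⟨ε, hε, h⟩ := Metric.continuous_iff.mp hc a δ hδ
  refine ⟨ε, hε, fun y hy => ?_⟩
  rw [← dist_eq_norm]
  apply h
  rw [dist_pi_lt_iff hε]
  intro i
  rw [dist_eq_norm]
  exact hy i

theorem one4_sup {p : ℕ} [Fact p.Prime] {n : ℕ} (E : Fin n → IntermediateField ℚ_[p] ℂ_[p])
    (hE : ∀ i, FiniteDimensional ℚ_[p] (E i)) :
    FiniteDimensional ℚ_[p] (⨆ i, E i : IntermediateField ℚ_[p] ℂ_[p]) := by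
  haveI := hE
  exact IntermediateField.finiteDimensional_iSup_of_finite

theorem one4_pos {k Ω : Type} [Field k] [Field Ω] [Algebra k Ω] {D : Sec k Ω} {p : ℕ}
    [Fact p.Prime] {σ : k →+* ℂ_[p]} (P : Place D p σ) {x : LL D} (h : x ∈ P.C)
    {R : Polynomial k} (hR0 : R.eval 0 ≠ 0) (he : (R.map σ).eval (P.φ ⟨x, h⟩) = 0) :
    P.φ ⟨x, h⟩ ≠ 0 := by
  intro h0
  rw [h0, Polynomial.eval_map, Polynomial.eval₂_at_zero, Polynomial.coeff_zero_eq_eval_zero] at he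
  exact hR0 ((map_eq_zero σ).mp he)

theorem st_ONE4 (hKUM : ST_KUM) (hROOT : ST_ROOT) (hBOT : ST_BOT) (hEMB : ST_EMB) (hRK : ST_RK)
    (hTSX : ST_TSX) (hUPOL : ST_UPOL) : ST_ONE4 := by
  intro k Ω _ _ _ _ _ D k₁ _ _ _ hfg hLZ x R hR0 hRA
  have hck : CharZero k₁ := (algebraMap k₁ k).charZero
  -- `x ≠ 0`
  have hx : x ≠ 0 := by
    haveI : Fact (Nat.Prime 2) := ⟨Nat.prime_two⟩
    obtain ⟨σ, E, hE, hσE⟩ := hEMB k hfg 2
    obtain ⟨P, _⟩ := hRK k Ω D 2 σ E hE hσE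
    obtain ⟨h, he⟩ := hRA 2 σ ⟨E, hE, hσE⟩ P
    intro h0
    subst h0
    exact one4_pos P h hR0 he (map_zero P.φ)
  choose c g hcg using one4_rep hKUM hBOT D x hx
  have hcls : Cls (fun N => Algebra.norm k₁ (c N)) := by
    refine ⟨fun N hN => (Algebra.norm_ne_zero_iff).mpr (hcg N hN).1, fun N M hN hM => ?_⟩
    obtain ⟨h1, _, h2⟩ := hcg N hN
    obtain ⟨h3, h4, h5⟩ := hcg (N * M) (Nat.mul_pos hN hM)
    obtain ⟨d, hd⟩ := one4_cls hROOT hBOT D x _ _ _ _ N M hN h1 h4 h2 h5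
    exact ⟨Algebra.norm k₁ d, by
      show Algebra.norm k₁ (c (N * M)) = Algebra.norm k₁ (c N) * _
      rw [hd, map_mul, map_pow]⟩
  obtain ⟨U, hU0, hU⟩ := hUPOL k k₁ R hR0
  have hloc : LocC (fun N => Algebra.norm k₁ (c N)) U := by
    intro p _
    refine ⟨(12 * p).factorial * (Module.finrank k₁ k).factorial, Nat.mul_pos
      (Nat.factorial_pos _) (Nat.factorial_pos _), fun j E hE hjE => ?_⟩
    obtain ⟨T, hTj, _, hT⟩ := hTSX k k₁ p j E hE hjE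
    choose E₁ hE₁ hσE₁ hE₁n using hT
    choose P hP using fun i => hRK k Ω D p (T.σ i) (E₁ i) (hE₁ i) (hσE₁ i)
    choose hxP heP using fun i => hRA p (T.σ i) ⟨E₁ i, hE₁ i, hσE₁ i⟩ (P i)
    have hne : ∀ i, (P i).φ ⟨x, hxP i⟩ ≠ 0 := fun i => one4_pos (P i) (hxP i) hR0 (heP i)
    refine ⟨∏ i, (P i).φ ⟨x, hxP i⟩, Finset.prod_ne_zero_iff.mpr (fun i _ => hne i), ?_,
      ⨆ i, (P i).E, one4_sup _ (fun i => (P i).finE), ?_⟩
    · rw [← hTj]
      exact hU p T _ heP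
    · intro N hN δ hδ
      obtain ⟨ε, hε, hprod⟩ := one4_prod (fun i => (P i).φ ⟨x, hxP i⟩) hδ
      choose w hwE y hyE hyφ hyw using fun i => (P i).kum ⟨x, hxP i⟩ (hne i) N hN ε hε (c N) (g N)
        (hcg N hN).2.2
      choose w' hw'E hw' using fun i => hP i (w i) (hwE i)
      choose w'' hw''E hw'' using fun i => hE₁n i (w' i) (hw'E i)
      have hmem : ∀ (z : Fin T.n → ℂ_[p]), (∀ i, z i ∈ (P i).E) →
          ∏ i, z i ∈ (⨆ i, (P i).E : IntermediateField ℚ_[p] ℂ_[p]) := by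
        intro z hz
        exact prod_mem (fun i _ => le_iSup (fun i => (P i).E) i (hz i))
      refine ⟨∏ i, y i, hmem y hyE, ∏ i, w i, hmem w hwE, ?_, hprod y hyφ, ∏ i, w'' i,
        prod_mem (fun i _ => hw''E i), ?_⟩
      · rw [← hTj, ← T.norm, ← Finset.prod_pow, ← Finset.prod_mul_distrib]
        exact Finset.prod_congr rfl (fun i _ => hyw i)
      · rw [norm_prod, norm_prod, ← Finset.prod_pow]
        refine Finset.prod_congr rfl (fun i _ => ?_)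
        rw [pow_mul, hw' i, hw'' i]
  obtain ⟨r, hr, ht⟩ := hLZ _ U hcls hU0 hloc
  exact ⟨r, hr, fun N hN => ⟨c N, (hcg N hN).1, g N, (hcg N hN).2.2, ht N hN⟩⟩

end Pool.Agent.Helper14.BSC
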